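import Pool.Agent.V11168.MV.Clo2
import Pool.Agent.V11168.Rel.Cons

/-!
# Iitaka's inequality, with orbifold base, for fibre spaces with closed multivalued holomorphic 1-forms

Let `X` be a projective manifold, `f : X → B` a dominant rational map, `dim B = d`, `dim X = d + (r + 1)`,
with general fibre `F`, and `Z → X` a Galois cover, which may be ramified, with the finite group `G`. `L` is
the function field of `Z`, so `X` is birational to `Z / G` and has the function field `fixedField G`;
`M ⊂ fixedField G` is the function field of `B`. Let `B'`, with the function field `M' ⊂ L`, be the Stein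
factorization of `Z → B`: `M'` is algebraically closed in `L`, of transcendence degree `d`.

Let `V` be a space of closed holomorphic 1-forms on `Z` which, considered as multivalued 1-forms on `X`, are
holomorphic on `X` (`IsMultiRegOn`): along each prime divisor `v` over `X`, their values on the vector fields
on `X` which are regular along `v` (lifted to `Z`) are regular along the prime divisors `w` over `v`. For
example the forms on a spectral cover `Z` of `X` given by the factors of symmetric differentials on `X`. It
is assumed that `r + 1` forms in `V` are linearly independent on the general fibre of `Z → B'`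
(`IndepOver`), and that the vector fields on the generic fibre of `Z → B'` on which all forms in `V` are
constant (`constFields (fibreForms M' V)`) are regular on some projective model of it
(`IsRegularOnModel`). There is no condition of Reid-Tai type.

`Δ_B` is a divisor on `B`, given by its multiplicities `δB u` along all prime divisors `u` over `B`, with
`e ≤ c (1 - δB u)` if the prime divisor `w` over `Z` has ramification index `e` over `X` and lies over `u`
with multiplicity `c` (`MultBound`), that is, `δB u ≤ 1 - 1 / c'`, where `c' = c / e` is the multiplicity over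
`u` of the prime divisor over `X` below `w`. So one can take `Δ_B = 0` (Iitaka's inequality), or on suitable
models the orbifold base of Campana, which takes the multiple fibres into account. Nothing is assumed on
`B`.
-/

set_option autoImplicit false

open FF IntermediateField Pool.Agent.W619.PQ Pool.Agent.W619.TW Pool.Agent.W619.Y
  Pool.Agent.Y173.QA Pool.Agent.Y173.QM Pool.Agent.Y174 Pool.Agent.V11168.Rel
  Pool.Agent.V11168.MV

namespace Pool.Agent.Results.MP_f72953_ag.ClosedMultivaluedForms

/-- `κ ≥ h` for the projective manifolds of dimension `n` over `k` with the function field `K`: for some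
`m ≥ 1` there are `h + 1` regular `m`-fold pluricanonical forms whose `h` ratios are algebraically
independent. -/
def KodairaGe (k K : Type) [Field k] [Field K] [Algebra k K] (n h : ℕ) : Prop := KodTr k K n h

/-- **Theorem.** Let `f : X → B` with general fibre `F`, `Z`, `G`, `B'` and `V` be as above. Then
`κ (X) ≥ κ (K_B + Δ_B) + κ (F)` for all `Δ_B` as above; in particular `κ (X) ≥ κ (B) + κ (F)`
(Iitaka's inequality). Moreover `κ (F) ≤ a`, where `a` is `r + 1` minus the dimension of the space of the
vector fields on the generic fibre of `Z → B'` on which all forms in `V` are constant, and `a` is the Kodaira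
dimension of the generic fibre of `Z → B'`. (`PairKod ℂ M d δB b` means `κ (K_B + Δ_B) ≥ b`;
`extendScalars hMX` is the function field of `X`, considered as the function field of the generic fibre of
`f`, over `M`.) -/
theorem result {L : Type} [Field L] [Algebra ℂ L] [Algebra.EssFiniteType ℂ L]
    -- the quotient
    (G : Subgroup (L ≃ₐ[ℂ] L)) [Finite G]
    -- the base and the Stein factorization
    (M M' : IntermediateField ℂ L) [Algebra.EssFiniteType ℂ M] [Algebra.EssFiniteType ℂ M']
    (hMX : M ≤ fixedField G) (hMM' : M ≤ M') (hMcl : ∀ x : L, IsAlgebraic M' x → x ∈ M')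
    {d r : ℕ} (hM : Algebra.trdeg ℂ M = d) (hM' : Algebra.trdeg ℂ M' = d)
    (hn : Algebra.trdeg ℂ L = (d + (r + 1) : ℕ))
    -- the forms
    (V : Submodule ℂ (Derivation ℂ L L →ₗ[L] L)) (hreg : ∀ θ ∈ V, IsRegForm (d + (r + 1)) θ)
    (hcl : ∀ θ ∈ V, IsClosedForm θ) (hV : ∀ θ ∈ V, IsMultiRegOn G (d + (r + 1)) θ)
    (hind : ∃ θ : Fin (r + 1) → Derivation ℂ L L →ₗ[L] L, (∀ i, θ i ∈ V) ∧
      IndepOver (m := d) M' θ)
    (hmod : IsRegularOnModel (constFields (fibreForms M' V))) :
    (∀ δB : Place ℂ M → ℝ, MultBound (d + (r + 1)) G M δB → ∀ b c : ℕ,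
      PairKod ℂ M d δB b → KodairaGe M (IntermediateField.extendScalars hMX) (r + 1) c →
        KodairaGe ℂ (fixedField G) (d + (r + 1)) (b + c)) ∧
    (∀ b c : ℕ, KodairaGe ℂ M d b →
      KodairaGe M (IntermediateField.extendScalars hMX) (r + 1) c →
        KodairaGe ℂ (fixedField G) (d + (r + 1)) (b + c)) ∧
    ∃ a : ℕ, a + Module.finrank M' (constFields (fibreForms M' V)) = r + 1 ∧
      (∀ h, KodairaGe M' L (r + 1) h ↔ h ≤ a) ∧
      ∀ c, KodairaGe M (IntermediateField.extendScalars hMX) (r + 1) c → c ≤ a := by
  obtain ⟨θ, hθ, hθi⟩ := hind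
  have hfd := fd_fixed G
  have key : ∀ δB : Place ℂ M → ℝ, MultBound (d + (r + 1)) G M δB →
      ∃ a : ℕ, a + Module.finrank M' (constFields (fibreForms M' V)) = r + 1 ∧
      (∀ h, PairKod ℂ M d δB h → PairKod ℂ (fixedField G) (d + (r + 1)) (fun _ => 0) (h + a)) ∧
      (IsRegularOnModel (constFields (fibreForms M' V)) →
        PairNum ℂ (fixedField G) (d + (r + 1)) (fun _ => 0) (d + a) ∧
        NumLe M' L (r + 1) (fun _ => False) a) ∧ KodTr M' L (r + 1) a := fun δB hδ =>
    clo_main hMM' hMcl hM hM' hn G (fun x hx => hMX hx) hreg hcl hV hδ hθ hθi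
  have hzero : MultBound (d + (r + 1)) G M (fun _ => 0) := by
    intro v w e u c hw hwv hwu
    obtain ⟨f, hf0, hf⟩ := u.surj
    have h1 : w.ord (f : L) = c := by
      have h2 := hwu.2 f
      rw [hf, mul_one] at h2
      exact h2
    have h3 : w.ord (f : L) = e * v.ord (⟨(f : L), hMX f.2⟩ : fixedField G) :=
      hwv.2 ⟨(f : L), hMX f.2⟩
    rw [h1] at h3
    have h4 : (0 : ℤ) < c := by exact_mod_cast hwu.1
    have h5 : (0 : ℤ) < e := by exact_mod_cast hwv.1
    have h6 : (1 : ℤ) ≤ v.ord (⟨(f : L), hMX f.2⟩ : fixedField G) := by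
      by_contra h7
      push Not at h7
      nlinarith
    have h8 : (e : ℤ) ≤ c := by nlinarith
    have h9 : (e : ℝ) ≤ c := by exact_mod_cast h8
    simpa using h9
  obtain ⟨a, ha, h1, h2, h3⟩ := key _ hzero
  obtain ⟨h4, h5⟩ := h2 hmod
  have hquot : ∀ c, KodTr M (IntermediateField.extendScalars hMX) (r + 1) c → c ≤ a :=
    fun c hc => fibre_quot hM' hn G h5 hMM' hMX hM hc
  have hlow : ∀ δB : Place ℂ M → ℝ, MultBound (d + (r + 1)) G M δB → ∀ b c : ℕ,
      PairKod ℂ M d δB b → KodTr M (IntermediateField.extendScalars hMX) (r + 1) c →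
        KodTr ℂ (fixedField G) (d + (r + 1)) (b + c) := by
    intro δB hδ b c hb hc
    obtain ⟨a', ha', h6, -⟩ := key δB hδ
    have h7 : a' = a := by omega
    rw [h7] at h6
    have h8 := h6 b hb
    have h9 := hquot c hc
    exact pairKod_zero.1 (pairKod_mono (by omega) h8)
  unfold KodairaGe
  exact ⟨hlow, fun b c hb hc => hlow _ hzero b c (pairKod_zero.2 hb) hc, a, ha,
    fun h => ⟨fun h7 => Pool.Agent.V11168.Abund.le_of_kod_num
      (Pool.Agent.Y174.trdeg_LK (L := M') hM' hn) h7 h5,
      fun h7 => Pool.Agent.V11168.Abund.kodTr_mono h7 h3⟩, hquot⟩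

end Pool.Agent.Results.MP_f72953_ag.ClosedMultivaluedForms
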