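import Pool.Agent.V11168.Rel.Cons

/-!
# Iitaka's subadditivity for quotients of fibre spaces with closed relative 1-forms

Let `Z → B` be an algebraic fibre space, `dim B = d`, `dim Z = d + (r + 1)`, with the function fields
`M ⊂ L`, `V` a space of closed holomorphic 1-forms on `Z` (regular along all prime divisors over `Z`),
`r + 1` of which are linearly independent on the general fibre, and `G` a finite group of birational
automorphisms of `Z` which preserves `V`. Let `E` be a projective manifold birational to `Z / G`; its
function field is the field of invariants `fixedField G`. There is no condition on the base `B`.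

For example `Z` is (a resolution of) a closed subvariety of `B × A`, where `A` is an abelian variety,
`G` a finite group which acts on `B` and `A` and preserves `Z`, and `V` the space of the restrictions
of the invariant `1`-forms of `A`; the fibrations `E → B / G`.

`fibreForms M V` is the space of the restrictions of the forms in `V` to the generic fibre, with
coefficients in `M`, and `constFields (fibreForms M V)` the space of the vector fields on the generic
fibre on which all these forms are constant; they are assumed to be regular on some projective model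
of the generic fibre (`IsRegularOnModel`).

`ReidTaiOver d (r + 1) G M V`: if `g ≠ 1` in `G`, of order `e`, fixes pointwise a prime divisor `w`
over `Z`, and `θ 1, ..., θ (r + 1)` in `V`, independent on the general fibre, are eigenvectors of `g`
with the eigenvalues `ζ ^ a 1, ..., ζ ^ a (r + 1)`, `0 ≤ a i < e`, `ζ` a primitive `e`-th root of
unity, then `c + a 1 + ... + a (r + 1) ≥ e`, where `c = 0` if `w` dominates `B`, and `c` is any
positive order along `w` of a rational function on `B` otherwise.
-/

set_option autoImplicit false

open IntermediateField Pool.Agent.W619.PQ Pool.Agent.W619.TW Pool.Agent.W619.Y Pool.Agent.Y173.QA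
  Pool.Agent.Y173.QM Pool.Agent.V11168.Rel

namespace Pool.Agent.Results.MP_f72953_ag.FibreSpaceQuotients

/-- **Theorem.** Let `Z → B`, `M ⊂ L`, `V`, `G` and `E` be as above, and let `a` be `r + 1` minus the
dimension of the space of the constant vector fields of the generic fibre `F` of `Z → B`.
(1) `κ (F) = a` (`KodTr M L (r + 1) h` says that `κ (F) ≥ h`).
(2) `κ (E) ≥ κ (B) + κ (F)`.
(3) Iitaka's inequality `κ (E) ≥ κ (B') + κ (F')` holds for all maps `E → B'` through which `Z → B'`
factors over `B`, `dim B' = d` (for instance `B' = B / G`), with general fibre `F'`: `N` is the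
function field of `B'`, `N ⊂ M`, `N ⊂ fixedField G`, and `extendScalars hNG` is the field
`fixedField G`, the function field of `E`, considered as the function field of the generic fibre of
`E → B'`, over `N`. -/
theorem result {L : Type} [Field L] [Algebra ℂ L] [Algebra.EssFiniteType ℂ L]
    -- the base
    (M : IntermediateField ℂ L) [Algebra.EssFiniteType ℂ M]
    (hMcl : ∀ x : L, IsAlgebraic M x → x ∈ M) {d r : ℕ}
    (hM : Algebra.trdeg ℂ M = d) (hn : Algebra.trdeg ℂ L = (d + (r + 1) : ℕ))
    -- the group and the forms
    (G : Subgroup (L ≃ₐ[ℂ] L)) [Finite G]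
    (V : Submodule ℂ (Derivation ℂ L L →ₗ[L] L)) (hreg : ∀ θ ∈ V, IsRegForm (d + (r + 1)) θ)
    (hcl : ∀ θ ∈ V, IsClosedForm θ)
    (hstab : ∀ g ∈ G, ∀ θ ∈ V, ∃ θ' ∈ V, IsImage g θ θ')
    (hind : ∃ θ : Fin (r + 1) → Derivation ℂ L L →ₗ[L] L, (∀ i, θ i ∈ V) ∧
      IndepOver (m := d) M θ)
    (hmod : IsRegularOnModel (constFields (fibreForms M V)))
    (hRT : ReidTaiOver d (r + 1) G M V) :
    ∃ a : ℕ, a + Module.finrank M (constFields (fibreForms M V)) = r + 1 ∧
      (∀ h, KodTr M L (r + 1) h ↔ h ≤ a) ∧
      (∀ h, KodTr ℂ M d h → KodTr ℂ (fixedField G) (d + (r + 1)) (h + a)) ∧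
      ∀ (N : IntermediateField ℂ L) (_ : N ≤ M) (hNG : N ≤ fixedField G),
        Algebra.trdeg ℂ N = d → ∀ b c : ℕ, KodTr ℂ N d b →
          KodTr N (IntermediateField.extendScalars hNG) (r + 1) c →
            KodTr ℂ (fixedField G) (d + (r + 1)) (b + c) := by
  obtain ⟨θ, hθ, hθi⟩ := hind
  obtain ⟨a, ha, h1, h2, h3⟩ := rel_main hMcl hM hn G hreg hcl hstab hθ hθi
  obtain ⟨h4, h5, h6⟩ := h3 hmod
  refine ⟨a, ha, fun h => ⟨fun h7 => Pool.Agent.V11168.Abund.le_of_kod_num
    (Pool.Agent.Y174.trdeg_LK (L := M) hM hn) h7 h4,
    fun h7 => Pool.Agent.V11168.Abund.kodTr_mono h7 h1⟩, h2 hRT,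
    fun N hNM hNG hN b c hb hc => ?_⟩
  have h7 : c ≤ a := fibre_quot hM hn G h4 hNM hNG hN hc
  have h8 := h2 hRT b (base_quot hM hNM hN hb)
  exact Pool.Agent.V11168.Abund.kodTr_mono (by omega) h8

end Pool.Agent.Results.MP_f72953_ag.FibreSpaceQuotients
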